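import Pool.Agent.N139.AS.Stm

/-!
# Project AS (helper139), part PROJ (helper314): facts about the projections `pA` and `pL`
-/

set_option autoImplicit false

namespace Pool.Agent.N314.AS

open Finset Matrix
open Pool.Agent.N139.AS
open scoped ComplexOrder

noncomputable section

variable {N : Type} [Group N] {d : ℕ}

/-- multiplicative on the subgroup `W` -/
def MulOn (W : Subgroup N) (α : N → UU d) : Prop :=
  ∀ n ∈ W, ∀ m ∈ W, α (n * m) = α n * α m

theorem MulOn.one {W : Subgroup N} {α : N → UU d} (h : MulOn W α) : α 1 = 1 := by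
  have h1 := h 1 W.one_mem 1 W.one_mem
  rw [mul_one] at h1
  exact mul_left_cancel (a := α 1) (by rw [mul_one]; exact h1.symm)

theorem MulOn.inv {W : Subgroup N} {α : N → UU d} (h : MulOn W α) {n : N} (hn : n ∈ W) :
    α n⁻¹ = (α n)⁻¹ := by
  apply eq_inv_of_mul_eq_one_left
  rw [← h _ (W.inv_mem hn) _ hn, inv_mul_cancel, h.one]

/-- `avS` as a finite sum -/
theorem avS_eq (α : N → UU d) (T : Subgroup N) [Fintype T] :
    avS α (T : Set N) = ((Fintype.card T : ℂ)⁻¹) • ∑ n : T, (α n).1 := by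
  unfold avS
  congr 1
  · congr 1
    rw [← Nat.card_eq_fintype_card]
    rfl
  · rw [← finsum_set_coe_eq_finsum_mem, finsum_eq_sum_of_fintype]
    rfl

theorem smul_card (T : Subgroup N) [Fintype T] (X : Mt d) :
    ((Fintype.card T : ℂ)⁻¹) • (Fintype.card T • X) = X := by
  have h : (Fintype.card T : ℂ) ≠ 0 := by
    exact_mod_cast Fintype.card_ne_zero
  rw [← Nat.cast_smul_eq_nsmul ℂ, smul_smul, inv_mul_cancel₀ h, one_smul]

/-- absorption on the left -/
theorem absorb_left (α : N → UU d) (T : Subgroup N) [Fintype T] (X : Mt d)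
    (h : ∀ n ∈ T, (α n).1 * X = X) : avS α (T : Set N) * X = X := by
  rw [avS_eq, smul_mul_assoc, Finset.sum_mul, Finset.sum_congr rfl (fun (n : T) _ => h n n.2),
    Finset.sum_const, Finset.card_univ, smul_card]

theorem comm_av (α : N → UU d) (T : Subgroup N) [Fintype T] (X : Mt d)
    (h : ∀ n ∈ T, Commute (α n).1 X) : Commute (avS α (T : Set N)) X := by
  rw [avS_eq]
  apply Commute.smul_left
  exact Commute.sum_left _ _ _ (fun n _ => h n n.2)

theorem mul_av {W : Subgroup N} {α : N → UU d} (h : MulOn W α) (T : Subgroup N) [Fintype T]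
    (hT : T ≤ W) {n : N} (hn : n ∈ T) : (α n).1 * avS α (T : Set N) = avS α (T : Set N) := by
  rw [avS_eq, mul_smul_comm, Finset.mul_sum]
  congr 1
  have h1 : ∀ m : T, (α n).1 * (α m).1 = (α ((⟨n, hn⟩ * m : T) : N)).1 := by
    intro m
    have h2 := h n (hT hn) m (hT m.2)
    have h3 : (((⟨n, hn⟩ : T) * m : T) : N) = n * m := rfl
    rw [h3, h2]
    rfl
  rw [Finset.sum_congr rfl (fun m _ => h1 m)]
  exact Equiv.sum_comp (Equiv.mulLeft (⟨n, hn⟩ : T)) (fun m : T => (α (m : N)).1)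

theorem av_sq {W : Subgroup N} {α : N → UU d} (h : MulOn W α) (T : Subgroup N) [Fintype T]
    (hT : T ≤ W) : avS α (T : Set N) * avS α (T : Set N) = avS α (T : Set N) :=
  absorb_left α T _ (fun _ hn => mul_av h T hT hn)

theorem unit_conjTranspose (u : UU d) : (u.1)ᴴ = (u⁻¹ : UU d).1 := rfl

theorem av_herm {W : Subgroup N} {α : N → UU d} (h : MulOn W α) (T : Subgroup N) [Fintype T]
    (hT : T ≤ W) : (avS α (T : Set N)).IsHermitian := by
  unfold Matrix.IsHermitian
  rw [avS_eq, Matrix.conjTranspose_smul, Matrix.conjTranspose_sum]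
  congr 1
  · simp
  · have h1 : ∀ m : T, ((α m).1)ᴴ = (α ((m⁻¹ : T) : N)).1 := by
      intro m
      rw [unit_conjTranspose]
      have h2 := h.inv (hT m.2)
      have h3 : ((m⁻¹ : T) : N) = (m : N)⁻¹ := rfl
      rw [h3, h2]
    rw [Finset.sum_congr rfl (fun m _ => h1 m)]
    exact Equiv.sum_comp (Equiv.inv T) (fun m : T => (α (m : N)).1)

theorem av_isP {W : Subgroup N} {α : N → UU d} (h : MulOn W α) (T : Subgroup N) [Fintype T]
    (hT : T ≤ W) : IsP (avS α (T : Set N)) := ⟨av_herm h T hT, av_sq h T hT⟩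

/-- elements which normalize `T` commute with the projection -/
theorem norm_av {W : Subgroup N} {α : N → UU d} (h : MulOn W α) (T : Subgroup N) [Fintype T]
    (hT : T ≤ W) {x : N} (hx : x ∈ W) (hxT : ∀ n ∈ T, x * n * x⁻¹ ∈ T) :
    Commute (α x).1 (avS α (T : Set N)) := by
  unfold Commute SemiconjBy
  rw [avS_eq, mul_smul_comm, smul_mul_assoc, Finset.mul_sum, Finset.sum_mul]
  congr 1
  have h1 : ∀ m : T, (α x).1 * (α m).1 =
      (α (((⟨x * m * x⁻¹, hxT m m.2⟩ : T)) : N)).1 * (α x).1 := by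
    intro m
    have h2 : α x * α m = α (x * m * x⁻¹) * α x := by
      rw [← h _ hx _ (hT m.2), ← h _ (hT (hxT m m.2)) _ hx]
      congr 1
      group
    exact congrArg Subtype.val h2
  rw [Finset.sum_congr rfl (fun m _ => h1 m)]
  let F : T → T := fun m => ⟨x * m * x⁻¹, hxT m m.2⟩
  have hF : Function.Bijective F := by
    apply Function.Injective.bijective_of_finite
    intro a b hab
    have h2 := congrArg Subtype.val hab
    simp only [F] at h2
    apply Subtype.ext
    exact mul_left_cancel (mul_right_cancel h2)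
  exact hF.sum_comp (fun m : T => (α (m : N)).1 * (α x).1)

/-! ### projections -/

theorem IsP.mul {P Q : Mt d} (hP : IsP P) (hQ : IsP Q) (h : Commute P Q) : IsP (P * Q) := by
  refine ⟨?_, ?_⟩
  · unfold Matrix.IsHermitian
    rw [Matrix.conjTranspose_mul, hP.1.eq, hQ.1.eq]
    exact h.symm.eq
  · calc P * Q * (P * Q) = P * (Q * P) * Q := by simp only [mul_assoc]
      _ = P * (P * Q) * Q := by rw [h.symm.eq]
      _ = (P * P) * (Q * Q) := by simp only [mul_assoc]
      _ = P * Q := by rw [hP.2, hQ.2]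

theorem adj_left {P P' : Mt d} (hP : IsP P) (hP' : IsP P') (h : P * P' = P') : P' * P = P' := by
  have h1 := congrArg Matrix.conjTranspose h
  rw [Matrix.conjTranspose_mul, hP.1.eq, hP'.1.eq] at h1
  exact h1

theorem tr_ineq {P Q P' : Mt d} (hP : IsP P) (hQ : IsP Q) (hP' : IsP P') (h1 : P * P' = P')
    (h2 : Q * P' = P') : rtr (P * (1 - Q)) ≤ rtr P - rtr P' := by
  have h3 := adj_left hP hP' h1
  have h4 := adj_left hQ hP' h2
  set B : Mt d := (Q - P') * P with hB
  have hBB : Bᴴ * B = P * Q * P - P' := by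
    rw [hB, Matrix.conjTranspose_mul, Matrix.conjTranspose_sub, hP.1.eq, hQ.1.eq, hP'.1.eq]
    have h5 : (Q - P') * (Q - P') = Q - P' := by
      rw [sub_mul, mul_sub, mul_sub, hQ.2, h2, h4, hP'.2]
      abel
    calc P * (Q - P') * ((Q - P') * P) = P * ((Q - P') * (Q - P')) * P := by
          simp only [mul_assoc]
      _ = P * (Q - P') * P := by rw [h5]
      _ = P * Q * P - P * P' * P := by rw [mul_sub, sub_mul]
      _ = _ := by rw [h1, h3]
  have h6 : 0 ≤ Matrix.trace (Bᴴ * B) := (Matrix.posSemidef_conjTranspose_mul_self B).trace_nonneg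
  have h7 : 0 ≤ (Matrix.trace (Bᴴ * B)).re := (Complex.nonneg_iff.1 h6).1
  rw [hBB, Matrix.trace_sub, Complex.sub_re] at h7
  have h8 : Matrix.trace (P * Q * P) = Matrix.trace (P * Q) := by
    rw [Matrix.trace_mul_comm, ← mul_assoc, hP.2]
  rw [h8] at h7
  unfold rtr
  rw [mul_sub, mul_one, Matrix.trace_sub, Complex.sub_re]
  linarith

/-! ### conjugation by `t` -/

theorem cj_one (t : UU d) (e : Mt d) : cj t 1 e = t.1 * e * (t⁻¹ : UU d).1 := by
  unfold cj
  rw [_root_.zpow_one, _root_.zpow_neg_one]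

theorem inv_mul_val (t : UU d) : (t⁻¹ : UU d).1 * t.1 = 1 := by
  have h : (t⁻¹ * t : UU d) = 1 := inv_mul_cancel t
  exact congrArg Subtype.val h

theorem mul_inv_val (t : UU d) : t.1 * (t⁻¹ : UU d).1 = 1 := by
  have h : (t * t⁻¹ : UU d) = 1 := mul_inv_cancel t
  exact congrArg Subtype.val h

theorem cj_mul (t : UU d) (e f : Mt d) : cj t 1 (e * f) = cj t 1 e * cj t 1 f := by
  rw [cj_one, cj_one, cj_one]
  calc t.1 * (e * f) * (t⁻¹ : UU d).1 = t.1 * e * 1 * f * (t⁻¹ : UU d).1 := by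
        simp only [mul_assoc, mul_one, one_mul]
    _ = t.1 * e * ((t⁻¹ : UU d).1 * t.1) * f * (t⁻¹ : UU d).1 := by rw [inv_mul_val]
    _ = _ := by simp only [mul_assoc]

theorem cj_isP (t : UU d) {e : Mt d} (he : IsP e) : IsP (cj t 1 e) := by
  refine ⟨?_, ?_⟩
  · rw [cj_one]
    unfold Matrix.IsHermitian
    rw [Matrix.conjTranspose_mul, Matrix.conjTranspose_mul, he.1.eq, unit_conjTranspose,
      unit_conjTranspose, inv_inv, mul_assoc]
  · rw [← cj_mul, he.2]

theorem cj_av (α : N → UU d) (t : UU d) (σ : N → N) (T : Subgroup N) [Fintype T]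
    (h : ∀ n ∈ T, t * α n = α (σ n) * t) :
    cj t 1 (avS α (T : Set N)) = ((Fintype.card T : ℂ)⁻¹) • ∑ n : T, (α (σ n)).1 := by
  rw [cj_one, avS_eq, mul_smul_comm, smul_mul_assoc, Finset.mul_sum, Finset.sum_mul]
  congr 1
  apply Finset.sum_congr rfl
  intro n _
  have h1 : t * α n * t⁻¹ = α (σ n) := by rw [h n n.2, mul_inv_cancel_right]
  exact congrArg Subtype.val h1

theorem cj_absorb (α : N → UU d) (t : UU d) (σ : N → N) (T : Subgroup N) [Fintype T]
    (h : ∀ n ∈ T, t * α n = α (σ n) * t) (X : Mt d) (hX : ∀ n ∈ T, (α (σ n)).1 * X = X) :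
    cj t 1 (avS α (T : Set N)) * X = X := by
  rw [cj_av α t σ T h, smul_mul_assoc, Finset.sum_mul,
    Finset.sum_congr rfl (fun (n : T) _ => hX n n.2), Finset.sum_const, Finset.card_univ, smul_card]

theorem cj_comm (α : N → UU d) (t : UU d) (σ : N → N) (T : Subgroup N) [Fintype T]
    (h : ∀ n ∈ T, t * α n = α (σ n) * t) (X : Mt d) (hX : ∀ n ∈ T, Commute (α (σ n)).1 X) :
    Commute (cj t 1 (avS α (T : Set N))) X := by
  rw [cj_av α t σ T h]
  apply Commute.smul_left
  exact Commute.sum_left _ _ _ (fun n _ => hX n n.2)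

/-! ### the concrete group -/

theorem fi_fi {q q' : ℕ} (h : q ∣ q') (i : ℤ) : fi q (fi q' i) = fi q i := by
  unfold fi
  have h1 : (q : ℤ) ∣ (q' : ℤ) := by exact_mod_cast h
  have h2 : (i % (q' : ℤ) - q') % (q : ℤ) = i % (q : ℤ) := by
    rw [Int.sub_emod, Int.emod_emod_of_dvd _ h1, Int.emod_eq_zero_of_dvd h1, sub_zero,
      Int.emod_emod_of_dvd _ (dvd_refl _)]
  rw [h2]

theorem fL_fL {q q' : ℕ} (h : q ∣ q') (l : Lam) : fL q (fL q' l) = fL q l := by
  show Finsupp.mapDomain (fi q) (Finsupp.mapDomain (fi q') l) = Finsupp.mapDomain (fi q) l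
  rw [← Finsupp.mapDomain_comp]
  congr 1
  funext i
  exact fi_fi h i

theorem fN_of_dvd {p q q' : ℕ} (h : q ∣ q') {n : NN p} (hn : fN p q' n = 1) : fN p q n = 1 := by
  have h1 : fN p q (fN p q' n) = fN p q n := by
    apply NN.ext
    · show Finsupp.mapDomain (fL q) (Finsupp.mapDomain (fL q') n.a) =
        Finsupp.mapDomain (fL q) n.a
      rw [← Finsupp.mapDomain_comp]
      congr 1
      funext l
      exact fL_fL h l
    · exact fL_fL h n.l
  rw [← h1, hn, map_one]

/-- the group of `pA` -/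
def TA (p q w : ℕ) : Subgroup (NN p) := SA p ⊓ (fN p q).ker ⊓ WN p (-w) w

/-- the group of `pL` -/
def TL (p q w : ℕ) : Subgroup (NN p) := SL p ⊓ (fN p q).ker ⊓ WN p (-w) w

theorem mem_TA {p q w : ℕ} {n : NN p} :
    n ∈ TA p q w ↔ n ∈ SA p ∧ fN p q n = 1 ∧ n ∈ WN p (-w) w := by
  unfold TA
  rw [Subgroup.mem_inf, Subgroup.mem_inf, MonoidHom.mem_ker, and_assoc]

theorem mem_TL {p q w : ℕ} {n : NN p} :
    n ∈ TL p q w ↔ n ∈ SL p ∧ fN p q n = 1 ∧ n ∈ WN p (-w) w := by
  unfold TL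
  rw [Subgroup.mem_inf, Subgroup.mem_inf, MonoidHom.mem_ker, and_assoc]

theorem pA_eq (p q w : ℕ) (α : NN p → UU d) : pA p q w α = avS α (TA p q w : Set (NN p)) := by
  unfold pA
  congr 1
  ext n
  exact mem_TA.symm

theorem pL_eq (p q w : ℕ) (α : NN p → UU d) : pL p q w α = avS α (TL p q w : Set (NN p)) := by
  unfold pL
  congr 1
  ext n
  exact mem_TL.symm

theorem SA_conj {p : ℕ} {a : NN p} (ha : a ∈ SA p) (x : NN p) : x * a * x⁻¹ ∈ SA p := by
  have ha' : a.l = 0 := ha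
  show (x * a * x⁻¹).l = 0
  rw [NN.mul_l, NN.mul_l, NN.inv_l, ha']
  simp

theorem SL_comm {p : ℕ} {x y : NN p} (hx : x ∈ SL p) (hy : y ∈ SL p) : x * y = y * x := by
  have hx' : x.a = 0 := hx
  have hy' : y.a = 0 := hy
  apply NN.ext
  · rw [NN.mul_a, NN.mul_a, hx', hy', map_zero, map_zero]
  · rw [NN.mul_l, NN.mul_l, add_comm]

theorem decomp {p : ℕ} (n : NN p) : n = (⟨n.a, 0⟩ : NN p) * (⟨0, n.l⟩ : NN p) := by
  apply NN.ext
  · rw [NN.mul_a]
    show n.a = n.a + trl p 0 0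
    rw [map_zero, add_zero]
  · rw [NN.mul_l]
    show n.l = 0 + n.l
    rw [zero_add]

theorem WN_a {p : ℕ} {a b : ℤ} {n : NN p} (h : n ∈ WN p a b) : (⟨n.a, 0⟩ : NN p) ∈ WN p a b :=
  ⟨InL.zero a b, h.2⟩

theorem WN_l {p : ℕ} {a b : ℤ} {n : NN p} (h : n ∈ WN p a b) : (⟨0, n.l⟩ : NN p) ∈ WN p a b :=
  ⟨h.1, fun y hy => absurd rfl hy⟩

theorem fN_a {p q : ℕ} {n : NN p} (h : fN p q n = 1) : fN p q (⟨n.a, 0⟩ : NN p) = 1 := by
  have h1 : fA p q n.a = 0 := congrArg NN.a h
  apply NN.ext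
  · exact h1
  · show fL q 0 = 0
    rw [map_zero]

theorem fN_l {p q : ℕ} {n : NN p} (h : fN p q n = 1) : fN p q (⟨0, n.l⟩ : NN p) = 1 := by
  have h1 : fL q n.l = 0 := congrArg NN.l h
  apply NN.ext
  · show fA p q 0 = 0
    rw [map_zero]
  · exact h1

theorem shN_SA {p : ℕ} {n : NN p} (h : n ∈ SA p) : shN p n ∈ SA p := by
  have h' : n.l = 0 := h
  show shL n.l = 0
  rw [h', map_zero]

theorem shN_SL {p : ℕ} {n : NN p} (h : n ∈ SL p) : shN p n ∈ SL p := by
  have h' : n.a = 0 := h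
  show shA p n.a = 0
  rw [h', map_zero]

theorem t_PROJ (hO : S_OK) : S_PROJ := by
  intro p _ q q' v w R hq hq' hqq hvw hwR d α t hAct
  have hok := hO p
  have hmono : ∀ a b a' b' : ℤ, a' ≤ a → b ≤ b' → WN p a b ≤ WN p a' b' := hok.mono
  have hM : MulOn (WN p (-R) R) α := hAct.mul
  have hrel : ∀ n ∈ WN p (-R) (R - 1), t * α n = α (shN p n) * t := hAct.rel
  -- windows
  have hW : ∀ u u' : ℕ, u ≤ u' → WN p (-(u : ℤ)) u ≤ WN p (-(u' : ℤ)) u' := by
    intro u u' h
    have h' : (u : ℤ) ≤ u' := by exact_mod_cast h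
    exact hmono _ _ _ _ (by linarith) h'
  have hWR1 : ∀ u : ℕ, u + 1 ≤ R → WN p (-(u : ℤ)) u ≤ WN p (-(R : ℤ)) (R - 1) := by
    intro u h
    have h' : (u : ℤ) + 1 ≤ R := by exact_mod_cast h
    exact hmono _ _ _ _ (by linarith) (by linarith)
  have hsh : ∀ (u : ℕ) (n : NN p), n ∈ WN p (-(u : ℤ)) u →
      shN p n ∈ WN p (-((u + 1 : ℕ) : ℤ)) ((u + 1 : ℕ) : ℤ) := by
    intro u n hn
    have h1 : shN p n ∈ WN p (-(u : ℤ) + 1) ((u : ℤ) + 1) := (hok.shift (-(u : ℤ)) u n).2 hn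
    refine hmono _ _ _ _ ?_ ?_ h1
    · push_cast; linarith
    · push_cast; linarith
  have hfin : ∀ u : ℕ, Finite (WN p (-(u : ℤ)) u) := fun u => hok.fin _ _
  have hTAW : ∀ q u, TA p q u ≤ WN p (-(u : ℤ)) u := fun q u => inf_le_right
  have hTLW : ∀ q u, TL p q u ≤ WN p (-(u : ℤ)) u := fun q u => inf_le_right
  have hFA : ∀ q u, Fintype (TA p q u) := fun q u => by
    have := hfin u
    have : Finite (TA p q u) := Finite.of_injective _ (Subgroup.inclusion_injective (hTAW q u))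
    exact Fintype.ofFinite _
  have hFL : ∀ q u, Fintype (TL p q u) := fun q u => by
    have := hfin u
    have : Finite (TL p q u) := Finite.of_injective _ (Subgroup.inclusion_injective (hTLW q u))
    exact Fintype.ofFinite _
  have hTAR : ∀ u, u ≤ R → ∀ q, TA p q u ≤ WN p (-(R : ℤ)) R := fun u hu q =>
    (hTAW q u).trans (hW u R hu)
  have hTLR : ∀ u, u ≤ R → ∀ q, TL p q u ≤ WN p (-(R : ℤ)) R := fun u hu q =>
    (hTLW q u).trans (hW u R hu)
  -- elements of the window commute with `pA`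
  have hcA : ∀ u, u ≤ R → ∀ n ∈ WN p (-(u : ℤ)) u, Commute (α n).1 (pA p q u α) := by
    intro u hu n hn
    rw [pA_eq]
    apply norm_av hM (TA p q u) (hTAR u hu q) (hW u R hu hn)
    intro m hm
    rw [mem_TA] at hm ⊢
    refine ⟨SA_conj hm.1 n, ?_, ?_⟩
    · rw [map_mul, map_mul, hm.2.1, mul_one, ← map_mul, mul_inv_cancel, map_one]
    · exact (WN p (-(u : ℤ)) u).mul_mem ((WN p (-(u : ℤ)) u).mul_mem hn hm.2.2)
        ((WN p (-(u : ℤ)) u).inv_mem hn)
  have hPA : ∀ u, u ≤ R → IsP (pA p q u α) := fun u hu => by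
    rw [pA_eq]; exact av_isP hM _ (hTAR u hu q)
  have hPL : ∀ u, u ≤ R → IsP (pL p q' u α) := fun u hu => by
    rw [pL_eq]; exact av_isP hM _ (hTLR u hu q')
  have hcAL : ∀ u u', u ≤ u' → u' ≤ R → Commute (pA p q u' α) (pL p q' u α) := by
    intro u u' h h'
    apply Commute.symm
    rw [pL_eq]
    apply comm_av
    intro n hn
    exact hcA u' h' n (hW u u' h (hTLW q' u hn))
  have hPAL : ∀ u u', u ≤ u' → u' ≤ R → IsP (pA p q u' α * pL p q' u α) := fun u u' h h' =>
    IsP.mul (hPA u' h') (hPL u (h.trans h')) (hcAL u u' h h')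
  have hwR' : w ≤ R := by omega
  have hvR : v ≤ R := by omega
  have hmA : ∀ u, u ≤ R → ∀ n ∈ TA p q u, (α n).1 * pA p q u α = pA p q u α := by
    intro u hu n hn
    rw [pA_eq]
    exact mul_av hM _ (hTAR u hu q) hn
  have hmL : ∀ u, u ≤ R → ∀ n ∈ TL p q' u, (α n).1 * pL p q' u α = pL p q' u α := by
    intro u hu n hn
    rw [pL_eq]
    exact mul_av hM _ (hTLR u hu q') hn
  refine ⟨hPA w hwR', hPAL v w hvw hwR', hcA w hwR', ?_, ?_, ?_, ?_, ?_⟩
  · -- commutation with the product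
    intro n hn
    have hnl : (⟨0, n.l⟩ : NN p) ∈ WN p (-(v : ℤ)) v := WN_l hn
    have hna : (⟨n.a, 0⟩ : NN p) ∈ WN p (-(v : ℤ)) v := WN_a hn
    have hl : Commute (α ⟨0, n.l⟩).1 (pA p q w α * pL p q' v α) := by
      apply Commute.mul_right (hcA w hwR' _ (hW v w hvw hnl))
      apply Commute.symm
      rw [pL_eq]
      apply comm_av
      intro m hm
      have h1 : α m * α ⟨0, n.l⟩ = α ⟨0, n.l⟩ * α m := by
        rw [← hM _ (hTLR v hvR q' hm) _ (hW v R hvR hnl),
          ← hM _ (hW v R hvR hnl) _ (hTLR v hvR q' hm),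
          SL_comm (mem_TL.1 hm).1 (show (⟨0, n.l⟩ : NN p) ∈ SL p from rfl)]
      exact congrArg Subtype.val h1
    have ha : Commute (α ⟨n.a, 0⟩).1 (pA p q w α * pL p q' v α) := by
      have hca := hcA w hwR' _ (hW v w hvw hna)
      have hPA1 := hPA w hwR'
      have hcal := hcAL v w hvw hwR'
      -- `pA * α a * pL = pA * pL * α a`
      have key : ∀ m ∈ TL p q' v, pA p q w α * ((α ⟨n.a, 0⟩).1 * (α m).1) =
          pA p q w α * ((α m).1 * (α ⟨n.a, 0⟩).1) := by
        intro m hm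
        have hmW : m ∈ WN p (-(v : ℤ)) v := hTLW q' v hm
        set a : NN p := ⟨n.a, 0⟩ with haa
        have haSA : a ∈ SA p := rfl
        have hc : a * m * a⁻¹ * m⁻¹ ∈ TA p q w := by
          rw [mem_TA]
          refine ⟨?_, ?_, ?_⟩
          · have h1 : m * a⁻¹ * m⁻¹ ∈ SA p := SA_conj ((SA p).inv_mem haSA) m
            have h2 := (SA p).mul_mem haSA h1
            have h3 : a * (m * a⁻¹ * m⁻¹) = a * m * a⁻¹ * m⁻¹ := by group
            rwa [h3] at h2
          · have h1 : fN p q m = 1 := fN_of_dvd hqq (mem_TL.1 hm).2.1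
            rw [map_mul, map_mul, map_mul, map_inv, map_inv, h1]
            simp
          · apply hW v w hvw
            exact Subgroup.mul_mem _ (Subgroup.mul_mem _ (Subgroup.mul_mem _ hna hmW)
              (Subgroup.inv_mem _ hna)) (Subgroup.inv_mem _ hmW)
        have haR : a ∈ WN p (-(R : ℤ)) R := hW v R hvR hna
        have hmR : m ∈ WN p (-(R : ℤ)) R := hW v R hvR hmW
        have h1 : α a * α m = α (a * m * a⁻¹ * m⁻¹) * (α m * α a) := by
          rw [← hM _ haR _ hmR, ← hM _ hmR _ haR,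
            ← hM _ (hTAR w hwR' q hc) _ (Subgroup.mul_mem _ hmR haR)]
          congr 1
          group
        have h2 : (α a).1 * (α m).1 = (α (a * m * a⁻¹ * m⁻¹)).1 * ((α m).1 * (α a).1) :=
          congrArg Subtype.val h1
        have h3 : pA p q w α * (α (a * m * a⁻¹ * m⁻¹)).1 = pA p q w α := by
          have h4 := (hcA w hwR' _ (hTAW q w hc)).symm.eq
          rw [h4]
          exact hmA w hwR' _ hc
        rw [h2, ← mul_assoc, h3]
      have key2 : pA p q w α * ((α ⟨n.a, 0⟩).1 * pL p q' v α) =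
          pA p q w α * (pL p q' v α * (α ⟨n.a, 0⟩).1) := by
        rw [pL_eq, avS_eq, mul_smul_comm, smul_mul_assoc, mul_smul_comm, mul_smul_comm,
          Finset.mul_sum, Finset.sum_mul, Finset.mul_sum, Finset.mul_sum]
        congr 1
        apply Finset.sum_congr rfl
        intro m _
        exact key m m.2
      unfold Commute SemiconjBy
      calc (α ⟨n.a, 0⟩).1 * (pA p q w α * pL p q' v α)
          = ((α ⟨n.a, 0⟩).1 * pA p q w α) * pL p q' v α := by rw [mul_assoc]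
        _ = (pA p q w α * (α ⟨n.a, 0⟩).1) * pL p q' v α := by rw [hca.eq]
        _ = pA p q w α * ((α ⟨n.a, 0⟩).1 * pL p q' v α) := by rw [mul_assoc]
        _ = pA p q w α * (pL p q' v α * (α ⟨n.a, 0⟩).1) := key2
        _ = _ := by rw [mul_assoc]
    have h1 : α n = α ⟨n.a, 0⟩ * α ⟨0, n.l⟩ := by
      rw [← hM _ (hW v R hvR hna) _ (hW v R hvR hnl), ← decomp]
    have h2 : (α n).1 = (α ⟨n.a, 0⟩).1 * (α ⟨0, n.l⟩).1 := congrArg Subtype.val h1
    rw [h2]
    exact ha.mul_left hl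
  · -- absorption
    intro n hn hfn
    have hnl : (⟨0, n.l⟩ : NN p) ∈ TL p q' v := mem_TL.2 ⟨rfl, fN_l hfn, WN_l hn⟩
    have hna : (⟨n.a, 0⟩ : NN p) ∈ TA p q w :=
      mem_TA.2 ⟨rfl, fN_of_dvd hqq (fN_a hfn), hW v w hvw (WN_a hn)⟩
    have h1 : α n = α ⟨n.a, 0⟩ * α ⟨0, n.l⟩ := by
      rw [← hM _ (hTAR w hwR' q hna) _ (hTLR v hvR q' hnl), ← decomp]
    have h2 : (α n).1 = (α ⟨n.a, 0⟩).1 * (α ⟨0, n.l⟩).1 := congrArg Subtype.val h1
    have h3 : (α ⟨0, n.l⟩).1 * (pA p q w α * pL p q' v α) = pA p q w α * pL p q' v α := by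
      rw [← mul_assoc, (hcA w hwR' _ (hW v w hvw (WN_l hn))).eq, mul_assoc, hmL v hvR _ hnl]
    rw [h2, mul_assoc, h3, ← mul_assoc, hmA w hwR' _ hna]
  · rw [← mul_assoc, (hPA w hwR').2]
  · intro hw2
    have hw1 : w + 1 ≤ R := hwR
    apply tr_ineq (hPA w hwR') (cj_isP t (hPA w hwR')) (hPA (w + 1) hw1)
    · rw [pA_eq p q w]
      apply absorb_left
      intro n hn
      apply hmA (w + 1) hw1
      rw [mem_TA] at hn ⊢
      exact ⟨hn.1, hn.2.1, hW w (w + 1) (Nat.le_succ w) hn.2.2⟩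
    · rw [pA_eq p q w]
      apply cj_absorb α t (fun n => shN p n) _ (fun n hn => hrel n (hWR1 w hwR (hTAW q w hn)))
      intro n hn
      apply hmA (w + 1) hw1
      rw [mem_TA] at hn ⊢
      exact ⟨shN_SA hn.1, (hok.f_ker q n hq).2 hn.2.1, hsh w n hn.2.2⟩
  · intro hw2
    have hw1 : w + 1 ≤ R := hwR
    have hv1 : v + 1 ≤ R := by omega
    have hvw1 : v + 1 ≤ w + 1 := by omega
    have eA : pA p q w α * pA p q (w + 1) α = pA p q (w + 1) α := by
      rw [pA_eq p q w]
      apply absorb_left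
      intro n hn
      apply hmA (w + 1) hw1
      rw [mem_TA] at hn ⊢
      exact ⟨hn.1, hn.2.1, hW w (w + 1) (Nat.le_succ w) hn.2.2⟩
    have eL : pL p q' v α * pL p q' (v + 1) α = pL p q' (v + 1) α := by
      rw [pL_eq p q' v]
      apply absorb_left
      intro n hn
      apply hmL (v + 1) hv1
      rw [mem_TL] at hn ⊢
      exact ⟨hn.1, hn.2.1, hW v (v + 1) (Nat.le_succ v) hn.2.2⟩
    have cA : cj t 1 (pA p q w α) * pA p q (w + 1) α = pA p q (w + 1) α := by
      rw [pA_eq p q w]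
      apply cj_absorb α t (fun n => shN p n) _ (fun n hn => hrel n (hWR1 w hwR (hTAW q w hn)))
      intro n hn
      apply hmA (w + 1) hw1
      rw [mem_TA] at hn ⊢
      exact ⟨shN_SA hn.1, (hok.f_ker q n hq).2 hn.2.1, hsh w n hn.2.2⟩
    have cL : cj t 1 (pL p q' v α) * pL p q' (v + 1) α = pL p q' (v + 1) α := by
      rw [pL_eq p q' v]
      apply cj_absorb α t (fun n => shN p n) _ (fun n hn => hrel n (hWR1 v hv1 (hTLW q' v hn)))
      intro n hn
      apply hmL (v + 1) hv1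
      rw [mem_TL] at hn ⊢
      exact ⟨shN_SL hn.1, (hok.f_ker q' n hq').2 hn.2.1, hsh v n hn.2.2⟩
    have cAL : Commute (cj t 1 (pL p q' v α)) (pA p q (w + 1) α) := by
      rw [pL_eq p q' v]
      apply cj_comm α t (fun n => shN p n) _ (fun n hn => hrel n (hWR1 v hv1 (hTLW q' v hn)))
      intro n hn
      apply hcA (w + 1) hw1
      exact hW (v + 1) (w + 1) hvw1 (hsh v n (hTLW q' v hn))
    have kAL : Commute (pL p q' v α) (pA p q (w + 1) α) :=
      (hcAL v (w + 1) (by omega) hw1).symm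
    apply tr_ineq (hPAL v w hvw hwR') (cj_isP t (hPAL v w hvw hwR'))
      (hPAL (v + 1) (w + 1) hvw1 hw1)
    · calc pA p q w α * pL p q' v α * (pA p q (w + 1) α * pL p q' (v + 1) α)
          = pA p q w α * (pL p q' v α * pA p q (w + 1) α) * pL p q' (v + 1) α := by
            simp only [mul_assoc]
        _ = pA p q w α * (pA p q (w + 1) α * pL p q' v α) * pL p q' (v + 1) α := by
            rw [kAL.eq]
        _ = (pA p q w α * pA p q (w + 1) α) * (pL p q' v α * pL p q' (v + 1) α) := by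
            simp only [mul_assoc]
        _ = _ := by rw [eA, eL]
    · rw [cj_mul]
      calc cj t 1 (pA p q w α) * cj t 1 (pL p q' v α) * (pA p q (w + 1) α * pL p q' (v + 1) α)
          = cj t 1 (pA p q w α) * (cj t 1 (pL p q' v α) * pA p q (w + 1) α) *
              pL p q' (v + 1) α := by
            simp only [mul_assoc]
        _ = cj t 1 (pA p q w α) * (pA p q (w + 1) α * cj t 1 (pL p q' v α)) *
              pL p q' (v + 1) α := by
            rw [cAL.eq]
        _ = (cj t 1 (pA p q w α) * pA p q (w + 1) α) *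
              (cj t 1 (pL p q' v α) * pL p q' (v + 1) α) := by
            simp only [mul_assoc]
        _ = _ := by rw [cA, cL]

end

end Pool.Agent.N314.AS
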